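import Pool.Agent.Helper28.Ram.Goals

/-!
# Recursive procedures on arrays are linear-space functions
-/

namespace Pool.Agent.Helper19.Ram

open Pool.Agent.Helper65.LinSpace Pool.Agent.Helper28.Ram Finset

/-- The number of steps of the level `l`. -/
def TT (cnt : ℕ → ℕ) (l : ℕ) : ℕ := ∏ i ∈ range l, cnt i

theorem TT_zero (cnt : ℕ → ℕ) : TT cnt 0 = 1 := by simp [TT]

theorem TT_succ (cnt : ℕ → ℕ) (l : ℕ) : TT cnt (l + 1) = cnt l * TT cnt l := by
  simp [TT, prod_range_succ, mul_comm]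

theorem TT_pos {cnt : ℕ → ℕ} (h : ∀ l, 0 < cnt l) (l : ℕ) : 0 < TT cnt l :=
  prod_pos fun i _ => h i

theorem TT_dvd (cnt : ℕ → ℕ) {j l : ℕ} (h : j ≤ l) : TT cnt j ∣ TT cnt l := by
  obtain ⟨k, rfl⟩ := Nat.exists_eq_add_of_le h
  exact ⟨_, prod_range_add _ _ _⟩

theorem TT_mono {cnt : ℕ → ℕ} (hc : ∀ l, 0 < cnt l) {j l : ℕ} (h : j ≤ l) :
    TT cnt j ≤ TT cnt l := Nat.le_of_dvd (TT_pos hc l) (TT_dvd cnt h)

theorem nrec_shift (g : ℕ) (k : ℕ → ℕ → ℕ) (n : ℕ) :
    nrec g k (n + 1) = nrec (k 0 g) (fun i => k (i + 1)) n := by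
  induction n with
  | zero => rfl
  | succ n ih => rw [nrec_succ, ih, nrec_succ]

theorem nrec_congr' {k k' : ℕ → ℕ → ℕ} {n : ℕ} (g : ℕ) (h : ∀ i < n, ∀ r, k i r = k' i r) :
    nrec g k n = nrec g k' n := by
  induction n with
  | zero => rfl
  | succ n ih =>
    rw [nrec_succ, nrec_succ, ih fun i hi => h i (by omega), h n (by omega)]

theorem nrec_eq_iter (g : ℕ) (k : ℕ → ℕ → ℕ) (n : ℕ) : nrec g k n = iter k n g := by
  induction n with
  | zero => rfl
  | succ n ih =>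
    rw [nrec_succ, ih]
    rfl

theorem iter_first {S : Type} (G : ℕ → S → S) (A : S → S) {n : ℕ} (hn : 0 < n) (r : S) :
    iter (fun i s => G i (if i = 0 then A s else s)) n r = iter G n (A r) := by
  induction n with
  | zero => omega
  | succ n ih =>
    rcases Nat.eq_zero_or_pos n with h | h
    · subst h
      rfl
    · show G n (if n = 0 then _ else _) = G n _
      rw [if_neg (by omega), ih h]

/-- The array before the basic operation of the step `τ` of the level `l`. -/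
def stp (β Λ : ℕ) (cnt : ℕ → ℕ) (op : ℕ → ℕ → (ℕ → ℕ) → ℕ → ℕ) (l τ S : ℕ) : ℕ :=
  nrec S (fun i S => ifz (τ % TT cnt (l - 1 - i))
    (tab β Λ (op (l - 1 - i) (τ % TT cnt (l - i) / TT cnt (l - 1 - i)) (dig β S))) S) l

theorem stp_succ (β Λ : ℕ) (cnt : ℕ → ℕ) (op : ℕ → ℕ → (ℕ → ℕ) → ℕ → ℕ) (l τ S : ℕ) :
    stp β Λ cnt op (l + 1) τ S = stp β Λ cnt op l (τ % TT cnt l)
      (ifz (τ % TT cnt l) (tab β Λ (op l (τ % TT cnt (l + 1) / TT cnt l) (dig β S))) S) := by
  unfold stp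
  rw [nrec_shift]
  refine nrec_congr' _ fun i hi r => ?_
  have h1 : l + 1 - 1 - (i + 1) = l - 1 - i := by omega
  have h2 : l + 1 - (i + 1) = l - i := by omega
  rw [h1, h2, Nat.mod_mod_of_dvd _ (TT_dvd cnt (by omega : l - 1 - i ≤ l)),
    Nat.mod_mod_of_dvd _ (TT_dvd cnt (by omega : l - i ≤ l))]

/-- The procedure of the level `l` on numbers. -/
def prcN (β Λ : ℕ) (cnt : ℕ → ℕ) (base : (ℕ → ℕ) → ℕ → ℕ) (op : ℕ → ℕ → (ℕ → ℕ) → ℕ → ℕ)
    (l S : ℕ) : ℕ :=
  nrec S (fun τ S => tab β Λ (base (dig β (stp β Λ cnt op l τ S)))) (TT cnt l)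

theorem dig_tab_trc {β Λ : ℕ} {d : ℕ → ℕ} (h : ∀ x, d x < β) : dig β (tab β Λ d) = trc Λ d := by
  funext x
  unfold trc
  split_ifs with hx
  · exact dig_tab (fun i _ => h i) hx
  · have h1 := tab_lt (q := β) (m := Λ) (d := d) fun i _ => h i
    have h2 : β ^ Λ ≤ β ^ x := Nat.pow_le_pow_right (by have := h 0; omega) (by omega)
    unfold dig
    rw [Nat.div_eq_of_lt (by omega), Nat.zero_mod]

theorem prcN_eq {β Λ : ℕ} {cnt : ℕ → ℕ} {base : (ℕ → ℕ) → ℕ → ℕ}
    {op : ℕ → ℕ → (ℕ → ℕ) → ℕ → ℕ} (hc : ∀ l, 0 < cnt l) (hb : ∀ s x, base s x < β)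
    (ho : ∀ l j s x, op l j s x < β) (l S : ℕ) :
    dig β (prcN β Λ cnt base op l S) = prc Λ cnt base op l (dig β S) := by
  induction l generalizing S with
  | zero =>
    unfold prcN
    rw [TT_zero, nrec_succ, nrec_zero, dig_tab_trc (hb _)]
    rfl
  | succ l ih =>
    unfold prcN
    rw [nrec_eq_iter, TT_succ, iter_mul]
    have key : ∀ d < cnt l, ∀ S, iter (fun i S => tab β Λ (base (dig β
        (stp β Λ cnt op (l + 1) (d * TT cnt l + i) S)))) (TT cnt l) S =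
        prcN β Λ cnt base op l (tab β Λ (op l d (dig β S))) := by
      intro d hd S
      unfold prcN
      rw [nrec_eq_iter, ← iter_first _ (fun S => tab β Λ (op l d (dig β S))) (TT_pos hc l)]
      refine iter_congr (fun i hi r => ?_) S
      have h1 : (d * TT cnt l + i) % TT cnt l = i := by
        rw [mul_comm, Nat.mul_add_mod, Nat.mod_eq_of_lt hi]
      have h2 : d * TT cnt l + i < TT cnt (l + 1) := by
        rw [TT_succ]
        have : (d + 1) * TT cnt l ≤ cnt l * TT cnt l := Nat.mul_le_mul_right _ hd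
        rw [Nat.succ_mul] at this
        omega
      rw [stp_succ, h1, Nat.mod_eq_of_lt h2]
      have h3 : (d * TT cnt l + i) / TT cnt l = d := by
        rw [mul_comm, Nat.mul_add_div (TT_pos hc l), Nat.div_eq_of_lt hi, add_zero]
      rw [h3]
      rfl
    rw [iter_congr key]
    show _ = iter (fun j s => prc Λ cnt base op l (trc Λ (op l j s))) (cnt l) (dig β S)
    clear key
    generalize cnt l = n
    induction n with
    | zero => rfl
    | succ n ihn =>
      show dig β (prcN β Λ cnt base op l (tab β Λ (op l n (dig β (iter _ n S))))) =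
        prc Λ cnt base op l (trc Λ (op l n (iter _ n (dig β S))))
      rw [ih, dig_tab_trc (ho _ _ _), ihn]

theorem FLAT : FLAT_stmt := by
  intro α _ β Λ lv C cnt base op s0 hβ hΛ hlv hC hcnt hbase hop hs0 hb1 hb2 hb3 hC1 hC2 hpos
  have hβ0 : ∀ a, 0 < β a := fun a => lt_of_le_of_lt (Nat.zero_le _) (hb3 a 0)
  have hT : LS (fun z : α × ℕ => nrec 1 (fun j r => r * cnt z.1 j) (min z.2 (lv z.1))) := by
    refine LS.nrec (G := fun _ : α × ℕ => 1) (N := fun z => min z.2 (lv z.1))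
      (C := fun z => C z.1) (K := fun z j r => r * cnt z.1 j) (by fun_prop) (by fun_prop)
      (by fun_prop) ?_ ?_
    · have : LS (fun p : (α × ℕ) × ℕ × ℕ => cnt p.1.1 p.2.1) :=
        LS.comp (g := fun z : α × ℕ => cnt z.1 z.2) (f := fun p : (α × ℕ) × ℕ × ℕ =>
          (p.1.1, p.2.1)) hcnt (by fun_prop)
      fun_prop
    · intro z i hi
      have h1 : ∀ i, nrec 1 (fun j r => r * cnt z.1 j) i = TT (cnt z.1) i := by
        intro i
        induction i with
        | zero => rw [nrec_zero, TT_zero]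
        | succ i ih => rw [nrec_succ, ih, TT_succ, mul_comm]
      rw [h1]
      exact (TT_mono (hpos z.1) (hi.trans (min_le_right _ _))).trans (hC2 z.1)
  have hT' : ∀ a i, i ≤ lv a → nrec 1 (fun j r => r * cnt a j) (min i (lv a)) = TT (cnt a) i := by
    intro a i hi
    rw [min_eq_left hi]
    clear hi
    induction i with
    | zero => rw [nrec_zero, TT_zero]
    | succ i ih => rw [nrec_succ, ih, TT_succ, mul_comm]
  -- the chain
  have hstp : LS (fun z : α × ℕ × ℕ => stp (β z.1) (Λ z.1) (cnt z.1) (op z.1) (lv z.1) z.2.1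
      z.2.2) := by
    unfold stp
    refine LS.nrec (G := fun z : α × ℕ × ℕ => z.2.2) (N := fun z => lv z.1)
      (C := fun z => z.2.2 + C z.1)
      (K := fun z i S => ifz (z.2.1 % TT (cnt z.1) (lv z.1 - 1 - i))
        (tab (β z.1) (Λ z.1) (op z.1 (lv z.1 - 1 - i)
          (z.2.1 % TT (cnt z.1) (lv z.1 - i) / TT (cnt z.1) (lv z.1 - 1 - i)) (dig (β z.1) S))) S)
      (by fun_prop) (by fun_prop) (by fun_prop) ?_ ?_
    · have hA : LS (fun p : (α × ℕ × ℕ) × ℕ × ℕ => TT (cnt p.1.1) (lv p.1.1 - 1 - p.2.1)) := by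
        refine LS.congr (LS.comp (g := fun z : α × ℕ => nrec 1 (fun j r => r * cnt z.1 j)
          (min z.2 (lv z.1))) (f := fun p : (α × ℕ × ℕ) × ℕ × ℕ =>
          (p.1.1, lv p.1.1 - 1 - p.2.1)) hT (by fun_prop)) fun p => ?_
        exact (hT' _ _ (by omega)).symm
      have hB : LS (fun p : (α × ℕ × ℕ) × ℕ × ℕ => TT (cnt p.1.1) (lv p.1.1 - p.2.1)) := by
        refine LS.congr (LS.comp (g := fun z : α × ℕ => nrec 1 (fun j r => r * cnt z.1 j)
          (min z.2 (lv z.1))) (f := fun p : (α × ℕ × ℕ) × ℕ × ℕ =>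
          (p.1.1, lv p.1.1 - p.2.1)) hT (by fun_prop)) fun p => ?_
        exact (hT' _ _ (by omega)).symm
      have hD : LS (fun p : (α × ℕ × ℕ) × ℕ × ℕ => tab (β p.1.1) (Λ p.1.1)
          (op p.1.1 (lv p.1.1 - 1 - p.2.1) (p.1.2.1 % TT (cnt p.1.1) (lv p.1.1 - p.2.1) /
            TT (cnt p.1.1) (lv p.1.1 - 1 - p.2.1)) (dig (β p.1.1) p.2.2))) := by
        refine LS.tab (q := fun p : (α × ℕ × ℕ) × ℕ × ℕ => β p.1.1) (m := fun p => Λ p.1.1)
          (C := fun p => C p.1.1)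
          (d := fun p x => op p.1.1 (lv p.1.1 - 1 - p.2.1)
            (p.1.2.1 % TT (cnt p.1.1) (lv p.1.1 - p.2.1) /
            TT (cnt p.1.1) (lv p.1.1 - 1 - p.2.1)) (dig (β p.1.1) p.2.2) x) ?_ (by fun_prop)
          (by fun_prop) (by fun_prop) (fun p i _ => hb2 _ _ _ _ _) (fun p => hC1 _)
        have hA' : LS (fun q : ((α × ℕ × ℕ) × ℕ × ℕ) × ℕ =>
            TT (cnt q.1.1.1) (lv q.1.1.1 - 1 - q.1.2.1)) :=
          LS.comp (f := fun q : ((α × ℕ × ℕ) × ℕ × ℕ) × ℕ => q.1) hA (by fun_prop)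
        have hB' : LS (fun q : ((α × ℕ × ℕ) × ℕ × ℕ) × ℕ =>
            TT (cnt q.1.1.1) (lv q.1.1.1 - q.1.2.1)) :=
          LS.comp (f := fun q : ((α × ℕ × ℕ) × ℕ × ℕ) × ℕ => q.1) hB (by fun_prop)
        exact LS.comp (g := fun z : α × ℕ × ℕ × ℕ × ℕ =>
          op z.1 z.2.1 z.2.2.1 (dig (β z.1) z.2.2.2.1) z.2.2.2.2)
          (f := fun q : ((α × ℕ × ℕ) × ℕ × ℕ) × ℕ => (q.1.1.1, lv q.1.1.1 - 1 - q.1.2.1,
            q.1.1.2.1 % TT (cnt q.1.1.1) (lv q.1.1.1 - q.1.2.1) /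
              TT (cnt q.1.1.1) (lv q.1.1.1 - 1 - q.1.2.1), q.1.2.2, q.2)) hop (by fun_prop)
      exact LS.ifz (LS.mod (by fun_prop) hA) hD (by fun_prop)
    · intro z i _
      show nrec z.2.2 _ i ≤ z.2.2 + C z.1
      induction i with
      | zero =>
        rw [nrec_zero]
        omega
      | succ i ih =>
        rw [nrec_succ]
        unfold ifz
        split_ifs
        · refine ((tab_lt fun i _ => hb2 _ _ _ _ _).le.trans (hC1 z.1)).trans ?_
          omega
        · exact ih (by omega)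
  -- the whole procedure
  have hS0 : LS (fun a => tab (β a) (Λ a) (s0 a)) :=
    LS.tab hs0 hβ hΛ hC (fun a i _ => hb3 a i) hC1
  have hTlv : LS (fun a => TT (cnt a) (lv a)) := by
    refine LS.congr (LS.comp (g := fun z : α × ℕ => nrec 1 (fun j r => r * cnt z.1 j)
      (min z.2 (lv z.1))) (f := fun a : α => (a, lv a)) hT (by fun_prop)) fun a => ?_
    exact (hT' _ _ le_rfl).symm
  have hN : LS (fun a => prcN (β a) (Λ a) (cnt a) (base a) (op a) (lv a)
      (tab (β a) (Λ a) (s0 a))) := by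
    unfold prcN
    refine LS.nrec (G := fun a => tab (β a) (Λ a) (s0 a)) (N := fun a => TT (cnt a) (lv a))
      (C := C) (K := fun a τ S => tab (β a) (Λ a) (base a (dig (β a)
        (stp (β a) (Λ a) (cnt a) (op a) (lv a) τ S)))) hS0 hTlv hC ?_ ?_
    · refine LS.tab (q := fun p : α × ℕ × ℕ => β p.1) (m := fun p => Λ p.1)
        (C := fun p => C p.1)
        (d := fun p x => base p.1 (dig (β p.1)
          (stp (β p.1) (Λ p.1) (cnt p.1) (op p.1) (lv p.1) p.2.1 p.2.2)) x) ?_ (by fun_prop)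
        (by fun_prop) (by fun_prop) (fun p i _ => hb1 _ _ _) (fun p => hC1 _)
      have h1 : LS (fun q : (α × ℕ × ℕ) × ℕ => stp (β q.1.1) (Λ q.1.1) (cnt q.1.1) (op q.1.1)
          (lv q.1.1) q.1.2.1 q.1.2.2) :=
        LS.comp (f := fun q : (α × ℕ × ℕ) × ℕ => q.1) hstp (by fun_prop)
      exact LS.comp (g := fun z : α × ℕ × ℕ => base z.1 (dig (β z.1) z.2.1) z.2.2)
        (f := fun q : (α × ℕ × ℕ) × ℕ => (q.1.1, stp (β q.1.1) (Λ q.1.1) (cnt q.1.1) (op q.1.1)
          (lv q.1.1) q.1.2.1 q.1.2.2, q.2)) hbase (by fun_prop)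
    · intro a i _
      rcases i with _ | i
      · exact (tab_lt fun i _ => hb3 a i).le.trans (hC1 a)
      · rw [nrec_succ]
        exact (tab_lt fun i _ => hb1 a _ i).le.trans (hC1 a)
  refine LS.congr (f := fun z : α × ℕ => dig (β z.1) (prcN (β z.1) (Λ z.1) (cnt z.1) (base z.1)
    (op z.1) (lv z.1) (tab (β z.1) (Λ z.1) (s0 z.1))) z.2) ?_ fun z => ?_
  · exact LS.dig (by fun_prop) (LS.comp (f := fun z : α × ℕ => z.1) hN (by fun_prop))
      (by fun_prop)
  · rw [prcN_eq (hpos z.1) (hb1 z.1) (hb2 z.1), dig_tab_trc (hb3 z.1)]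

end Pool.Agent.Helper19.Ram
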